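import Mathlib
import Pool.Agent.Run7.h816.SF.Fin

/-!
# Lehmer's problem at all levels: small degree over fields with few Frobenius automorphisms

Let `E` be a number field which is Galois over `ℚ`, let `p` be a prime number with ramification indices
at most `e` in `E`, let `a ≥ 1`, and let `k` be the number of the automorphisms of `E` which are congruent
to `x ↦ x ^ (p ^ a)` modulo some prime ideal above `p`. Put

  `w = p ^ (a + 1) D ^ 9 e k exp (18 √(log (2 e k) log (2 D)))`.

There is an absolute constant `c > 0` such that `M(P) ≥ min (2, exp (c n / w))` for all irreducible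
`P ∈ ℤ[X]` of degree `n` with `M(P) > 1` which have a factor of degree at most `D` over `E`, with any
number `s(P)` of zeros outside the unit circle. Hence for all `ε > 0` and `D` there is a `δ > 0` such that
`M(P) ≥ 1 + δ` for all these `P` with `p ^ (a + 1) e k ≤ n ^ (1 - ε)`, for some `E`, `p`, `a`, `e`; and for
`B < 2` only finitely many of them have `1 < M(P) ≤ B`.

The root field of `P` can be any extension of degree at most `D` of a subfield of `E`; the Galois closure
can be larger than `E` by a factor exponential in `n`, and `p` can be ramified in it in any way.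
-/

set_option autoImplicit false

open Polynomial NumberField

namespace Pool.Agent.Results.MP_30f4fc_nt.SmallDegreeFewFrobenius

/-- the Mahler measure of an integer polynomial -/
noncomputable def M (f : ℤ[X]) : ℝ := (f.map (Int.castRingHom ℂ)).mahlerMeasure

/-- the automorphisms of the number field `E` which are congruent to the map `x ↦ x ^ (p ^ a)` modulo
some prime ideal above `p` -/
def frobenii (E : Type) [Field E] [NumberField E] (p a : ℕ) : Set (E ≃ₐ[ℚ] E) :=
  {σ | ∃ 𝔓 : Ideal (𝓞 E), 𝔓.IsPrime ∧ (p : 𝓞 E) ∈ 𝔓 ∧ ∀ x : 𝓞 E, σ • x - x ^ (p ^ a) ∈ 𝔓}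

/-- all ramification indices of prime ideals of `E` above `p` are at most `e` -/
def RamificationLE (E : Type) [Field E] [NumberField E] (p e : ℕ) : Prop :=
  ∀ 𝔓 : Ideal (𝓞 E), 𝔓.IsPrime → (p : 𝓞 E) ∈ 𝔓 → (p : 𝓞 E) ∉ 𝔓 ^ (e + 1)

/-- `f` has a factor of degree at least one and at most `D` over `E` -/
def DegreeLE (E : Type) [Field E] [NumberField E] (f : ℤ[X]) (D : ℕ) : Prop :=
  ∃ P : E[X], P ∣ f.map (algebraMap ℤ E) ∧ 1 ≤ P.natDegree ∧ P.natDegree ≤ D

/-- `p ^ (a + 1) e k`, where `k` is the number of the automorphisms in `frobenii E p a` -/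
noncomputable def cost (E : Type) [Field E] [NumberField E] (p a e : ℕ) : ℕ :=
  p ^ (a + 1) * (e * (frobenii E p a).ncard)

/-- the number `p ^ (a + 1) D ^ 9 e k exp (18 √(log (2 e k) log (2 D)))` -/
noncomputable def weight (E : Type) [Field E] [NumberField E] (p a e D : ℕ) : ℝ :=
  cost E p a e * (D : ℝ) ^ 9 *
    Real.exp (18 * Real.sqrt (Real.log (2 * (e * (frobenii E p a).ncard)) * Real.log (2 * D)))

/-- the irreducible integer polynomials `f` of positive degree `n` with `M f > 1` which have a factor of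
degree at most `D` over a Galois number field `E` such that `p ^ (a + 1) e k ≤ n ^ (1 - ε)`, for some
prime number `p` with ramification indices at most `e ≥ 1` in `E`, and some `a ≥ 1` -/
def family (ε : ℝ) (D : ℕ) : Set ℤ[X] :=
  {f | Irreducible f ∧ 1 ≤ f.natDegree ∧ 1 < M f ∧ ∃ (E : Type) (_ : Field E) (_ : NumberField E)
    (_ : IsGalois ℚ E) (p a e : ℕ), DegreeLE E f D ∧ p.Prime ∧ 1 ≤ a ∧ 1 ≤ e ∧
    RamificationLE E p e ∧ (cost E p a e : ℝ) ≤ (f.natDegree : ℝ) ^ (1 - ε)}

/-- the bound of the helper file in terms of the weight -/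
lemma fac_eq (C : ℝ) (E : Type) [Field E] [NumberField E] (p a e D : ℕ) :
    C * (p : ℝ) ^ (a + 1) * Pool.Agent.Run7.h816.MG.fac D
      (e * (Pool.Agent.Run7.h22.frobSet E p (p ^ a)).ncard) = C * weight E p a e D := by
  have h1 : Pool.Agent.Run7.h22.frobSet E p (p ^ a) = frobenii E p a := rfl
  rw [h1]
  unfold Pool.Agent.Run7.h816.MG.fac weight cost
  push_cast
  ring

/-- the inequality -/
lemma main1 : ∃ C : ℝ, 0 < C ∧ ∀ (E : Type) [Field E] [NumberField E] [IsGalois ℚ E]
    (p a e D : ℕ), p.Prime → 1 ≤ a → 1 ≤ e → RamificationLE E p e →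
    ∀ f : ℤ[X], Irreducible f → 1 < M f → M f < 2 → DegreeLE E f D →
      (f.natDegree : ℝ) ≤ C * (weight E p a e D * Real.log (M f)) := by
  obtain ⟨C, hC, h⟩ := Pool.Agent.Run7.h816.MG.poly_rel2
  refine ⟨C, hC, ?_⟩
  rintro E _ _ _ p a e D hp ha he hram f hf h1 h2 ⟨P, hP, hP1, hPD⟩
  have h5 := h E p a hp ha e he hram f hf h1 h2 P hP hP1 D hPD
  rw [fac_eq] at h5
  have h6 : (f.natDegree : ℝ) ≤ C * weight E p a e D * Real.log (M f) := h5
  refine h6.trans (le_of_eq ?_)
  ring

/-- finitely many members below any bound less than `2` -/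
lemma finite_family (ε B : ℝ) (D : ℕ) (hε : 0 < ε) (hB : B < 2) :
    {f | f ∈ family ε D ∧ M f ≤ B}.Finite := by
  obtain ⟨C1, hC1, hm1⟩ := main1
  obtain ⟨A1, hA1, hexp1⟩ := Pool.Agent.Run7.h816.SF.exp_factor ε hε D
  set X1 : ℝ := (C1 * ((D : ℝ) ^ 9 * A1 * |Real.log B|)) ^ (2 / ε) with hX1
  refine (Polynomial.finite_mahlerMeasure_le ⌊X1⌋₊ B.toNNReal).subset ?_
  rintro f ⟨⟨hf, hn, h1, E, _, _, _, p, a, e, hD, hp, ha, he, hram, hcost⟩, hfB⟩
  refine ⟨Nat.le_floor ?_, ?_⟩
  · have h5 := hm1 E p a e D hp ha he hram f hf h1 (hfB.trans_lt hB) hD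
    have hn1 : (1 : ℝ) ≤ (f.natDegree : ℝ) := by exact_mod_cast hn
    have hn0 : (0 : ℝ) < (f.natDegree : ℝ) := by linarith
    rcases Nat.eq_zero_or_pos (e * (frobenii E p a).ncard) with h0 | h0
    · have h6 : weight E p a e D = 0 := by
        unfold weight cost
        rw [h0, mul_zero, Nat.cast_zero, zero_mul, zero_mul]
      rw [h6, zero_mul, mul_zero] at h5
      linarith
    · have hx1 : (1 : ℝ) ≤ (e : ℝ) * (frobenii E p a).ncard := by exact_mod_cast h0
      have hxn : (e : ℝ) * (frobenii E p a).ncard ≤ f.natDegree := by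
        have hpR : (1 : ℝ) ≤ (p : ℝ) ^ (a + 1) := one_le_pow₀ (by exact_mod_cast hp.one_lt.le)
        calc (e : ℝ) * (frobenii E p a).ncard
            ≤ (p : ℝ) ^ (a + 1) * (e * (frobenii E p a).ncard) :=
              le_mul_of_one_le_left (by linarith) hpR
          _ = (cost E p a e : ℝ) := by
              unfold cost
              push_cast
              ring
          _ ≤ (f.natDegree : ℝ) ^ (1 - ε) := hcost
          _ ≤ (f.natDegree : ℝ) ^ (1 : ℝ) :=
              Real.rpow_le_rpow_of_exponent_le hn1 (by linarith)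
          _ = f.natDegree := Real.rpow_one _
      exact Pool.Agent.Run7.h816.SF.deg_of_weight hC1 hε hA1 (by positivity) hn1 h1 hfB hcost
        (Nat.cast_nonneg _) (hexp1 _ _ hx1 hxn) (Real.exp_pos _).le rfl h5
  · rw [Real.coe_toNNReal _ (by linarith)]
    exact hfB

/-- **Main result.** (1) `M f ≥ min (2, exp (c n / w))` with an absolute constant `c > 0`. (2) For `ε > 0`
and `D` there is a gap above `1` for the Mahler measures of the members of `family ε D`. (3) For `B < 2`
only finitely many members have Mahler measure at most `B`. -/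
theorem result :
    (∃ c : ℝ, 0 < c ∧ ∀ (E : Type) [Field E] [NumberField E] [IsGalois ℚ E] (p a e D : ℕ),
      p.Prime → 1 ≤ a → 1 ≤ e → RamificationLE E p e →
      ∀ f : ℤ[X], Irreducible f → 1 < M f → DegreeLE E f D →
        min 2 (Real.exp (c * f.natDegree / weight E p a e D)) ≤ M f) ∧
    (∀ (ε : ℝ) (D : ℕ), 0 < ε → ∃ δ : ℝ, 0 < δ ∧ ∀ f ∈ family ε D, 1 + δ ≤ M f) ∧
    (∀ (ε B : ℝ) (D : ℕ), 0 < ε → B < 2 → {f | f ∈ family ε D ∧ M f ≤ B}.Finite) := by
  refine ⟨?_, ?_, fun ε B D hε hB => finite_family ε B D hε hB⟩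
  · obtain ⟨C, hC, hm⟩ := main1
    refine ⟨1 / C, by positivity, fun E _ _ _ p a e D hp ha he hram f hf h1 hD => ?_⟩
    rcases le_or_gt 2 (M f) with h2 | h2
    · exact (min_le_left _ _).trans h2
    have h5 := hm E p a e D hp ha he hram f hf h1 h2 hD
    have hM : 0 < M f := by linarith
    have hlog : 0 < Real.log (M f) := Real.log_pos h1
    refine (min_le_right _ _).trans ?_
    rw [← Real.le_log_iff_exp_le hM]
    have hw0 : 0 ≤ weight E p a e D := by
      unfold weight
      positivity
    rcases hw0.eq_or_lt with h0 | h0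
    · rw [← h0, div_zero]
      exact hlog.le
    · rw [div_le_iff₀ h0, one_div_mul_eq_div, div_le_iff₀ hC]
      linarith
  · intro ε D hε
    have hfin := finite_family ε (3 / 2) D hε (by norm_num)
    rcases Set.eq_empty_or_nonempty {f | f ∈ family ε D ∧ M f ≤ 3 / 2} with h0 | hne
    · refine ⟨1 / 2, by norm_num, fun f hf => ?_⟩
      by_contra hcon
      push Not at hcon
      have h1 : f ∈ {f | f ∈ family ε D ∧ M f ≤ 3 / 2} := ⟨hf, by linarith⟩
      rw [h0] at h1
      exact absurd h1 (Set.notMem_empty f)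
    · obtain ⟨g, ⟨hg, hg2⟩, hmin⟩ := Set.exists_min_image _ M hfin hne
      have hg1 : 1 < M g := hg.2.2.1
      refine ⟨M g - 1, by linarith, fun f hf => ?_⟩
      rcases le_or_gt (M f) (3 / 2) with h3 | h3
      · have := hmin f ⟨hf, h3⟩
        linarith
      · linarith

end Pool.Agent.Results.MP_30f4fc_nt.SmallDegreeFewFrobenius
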